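import Pool.Agent.MP_d9582c_gt.H5.Basic
import Pool.Agent.MP_d9582c_gt.H35.Dom
import Pool.Agent.MP_d9582c_gt.H14.Cmp

/-!
Asymptotically uniform integrability of the heat traces at large times.
-/

open scoped InnerProductSpace ENNReal Topology
open MeasureTheory Set Filter ContinuousLinearMap

noncomputable section

namespace Pool.Agent.MP_d9582c_gt.H5

open Pool.Agent.MP_d9582c_gt.H34

universe u v

variable {Q : Type v} [Group Q]

/-- A bounded equivariant homotopy equivalence with the complex `(B, A)`. -/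
structure CD (C : Cx.{u} Q) {B : Type v} [NormedAddCommGroup B] [InnerProductSpace ℂ B]
    [CompleteSpace B] (V : URep Q B) (A : B →L[ℂ] B) (n : ℕ) (c : ℝ) where
  f : ∀ p, C.H p →L[ℂ] B
  g : ∀ p, B →L[ℂ] C.H p
  h : ∀ p, C.H (p + 1) →L[ℂ] C.H p
  k : B →L[ℂ] B
  htp : C.Htp (fun p => g p ∘L f p) h
  AA : ∀ y, A (A y) = 0
  Af : ∀ p x a, (x, a) ∈ C.D p → A (f p x) = f (p + 1) a
  gA : ∀ p y, (g p y, g (p + 1) (A y)) ∈ C.D p
  g0 : ∀ y, g 0 (A y) = 0
  sum : ∀ y, y = ∑ p ∈ Finset.range (n + 1), f p (g p y) + k (A y) + A (k y)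
  f_le : ∀ p, ‖f p‖ ≤ c
  g_le : ∀ p, ‖g p‖ ≤ c
  h_le : ∀ p, ‖h p‖ ≤ c
  k_le : ‖k‖ ≤ c
  f_equi : ∀ p, Equi (C.U p) V (f p)
  g_equi : ∀ p, Equi V (C.U p) (g p)

lemma cd_of_cech {C : Cx.{u} Q} {r n : ℕ} {c : ℝ} {A : L2r Q r →L[ℂ] L2r Q r}
    (h : C.Cech A n c) {V : URep Q (L2r Q r)} (hV : ∀ q u i y, V q u i y = u i (q⁻¹ * y)) :
    Nonempty (CD C V A n (max 1 c)) := by
  obtain ⟨f, g, h, k, h1, h2, h3, h4, h5, h6, h7, h8, h9, h10⟩ := h
  exact ⟨⟨f, g, h, k, h1, h2, h3, h4, h5, h6, fun p => le_max_of_le_right (h7 p).1,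
    fun p => le_max_of_le_right (h7 p).2.1, fun p => le_max_of_le_right (h7 p).2.2,
    le_max_of_le_right h8,
    fun p q x => PiLp.ext fun i => lp.ext (funext fun y => by rw [h9, hV]),
    fun p q w => h10 p q w _ (hV q w)⟩⟩

namespace CD

variable {C : Cx.{u} Q} {B : Type v} [NormedAddCommGroup B] [InnerProductSpace ℂ B]
  [CompleteSpace B] {V : URep Q B} {A : B →L[ℂ] B} {n : ℕ} {c : ℝ} (X : CD C V A n c)
include X

lemma c_nonneg : 0 ≤ c := (norm_nonneg _).trans X.k_le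

lemma exists_rest : ∀ p x a, (x, a) ∈ C.D p →
    ∃ b, (b, (0 : C.H (p + 1))) ∈ C.D p ∧ x = X.g p (X.f p x) + X.h p a + b
  | 0, x, a, h => ⟨0, (C.D 0).zero_mem, by simpa using X.htp.1 x a h⟩
  | p + 1, x, a, h => ⟨_, C.dd p _ _ (X.htp.2 p x a h), by simp⟩

lemma fwd_one {p : ℕ} {x : C.H p} {k : WithLp 2 (C.H (p + 1) × C.H (p - 1))}
    (hx : (x, k) ∈ C.lap p) (hP : (1 - kerProj (C.D p)) x = x) :
    ‖x‖ ≤ c * ‖H35.perp A (X.f p x)‖ + c * ‖k‖ ∧ ‖A (X.f p x)‖ ≤ c * ‖k‖ := by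
  have hc := X.c_nonneg
  have hk : c * ‖k.fst‖ ≤ c * ‖k‖ := mul_le_mul_of_nonneg_left (WithLp.norm_fst_le _ k) hc
  refine ⟨le_of_re_inner (by positivity) ?_, ?_⟩
  · have hperp : ∀ z, (z, (0 : C.H (p + 1))) ∈ C.D p → ⟪z, x⟫_ℂ = 0 := fun z hz =>
      hP ▸ perp_ker (C.closed p) x hz
    obtain ⟨b, hb, e⟩ := X.exists_rest p x _ hx.1
    have h1 := X.gA p (X.f p x - H35.perp A (X.f p x))
    rw [map_sub A, H35.apply_perp, sub_self, map_zero] at h1
    have h2 := hperp _ h1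
    rw [map_sub, inner_sub_left, sub_eq_zero] at h2
    have h3 : ⟪x, x⟫_ℂ = ⟪X.g p (H35.perp A (X.f p x)), x⟫_ℂ + ⟪X.h p k.fst, x⟫_ℂ := by
      nth_rw 1 [e]
      rw [inner_add_left, inner_add_left, hperp b hb, h2, add_zero]
    rw [h3, Complex.add_re]
    have h4 := re_inner_op_le (X.g_le p) (H35.perp A (X.f p x)) x
    have h5 := re_inner_op_le (X.h_le p) k.fst x
    nlinarith [mul_le_mul_of_nonneg_right hk (norm_nonneg x)]
  · rw [X.Af p x _ hx.1]
    exact ((X.f (p + 1)).le_of_opNorm_le (X.f_le _) _).trans hk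

lemma adj_g : ∀ p z b, (z, b) ∈ C.co p → ‖adjoint A (adjoint (X.g p) z)‖ ≤ c * ‖b‖
  | 0, z, b, _ => by
    have : adjoint A (adjoint (X.g 0) z) = 0 := ext_inner_left ℂ fun y => by
      rw [adjoint_inner_right, adjoint_inner_right, X.g0]; simp
    rw [this, norm_zero]
    exact mul_nonneg X.c_nonneg (norm_nonneg _)
  | p + 1, z, b, h => by
    have : adjoint A (adjoint (X.g (p + 1)) z) = adjoint (X.g p) b := ext_inner_left ℂ fun y => by
      rw [adjoint_inner_right, adjoint_inner_right, adjoint_inner_right]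
      exact sub_eq_zero.1 ((mem_co_succ C).1 h _ _ (X.gA p y))
    rw [this]
    exact (adjoint (X.g p)).le_of_opNorm_le (by simpa using X.g_le p) _

lemma adj_f : ∀ p y, ∃ b, (adjoint (X.f p) y, b) ∈ C.co p ∧ ‖b‖ ≤ c * ‖adjoint A y‖
  | 0, y => ⟨0, (mem_co_zero C).2 rfl, by simpa using mul_nonneg X.c_nonneg (norm_nonneg _)⟩
  | p + 1, y => ⟨adjoint (X.f p) (adjoint A y), (mem_co_succ C).2 fun u a hu => by
      rw [adjoint_inner_right, adjoint_inner_right, adjoint_inner_right, X.Af p u a hu, sub_self],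
    (adjoint (X.f p)).le_of_opNorm_le (by simpa using X.f_le p) _⟩

lemma fwd_two (hS : SplitStmt.{u}) : ∀ {p : ℕ} {x : C.H p}
    {k : WithLp 2 (C.H (p + 1) × C.H (p - 1))}, (x, k) ∈ C.lap p →
    (1 - kerProj (C.co p)) x = x →
    ‖x‖ ≤ c * ‖H35.perp (adjoint A) (adjoint (X.g p) x)‖ + c * ‖k‖ ∧
      ‖adjoint A (adjoint (X.g p) x)‖ ≤ c * ‖k‖ := by
  intro p x k hx hP
  have hc := X.c_nonneg
  have hk : c * ‖k.snd‖ ≤ c * ‖k‖ := mul_le_mul_of_nonneg_left (WithLp.norm_snd_le _ k) hc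
  refine ⟨le_of_re_inner (by positivity) ?_, (X.adj_g p x _ hx.2).trans hk⟩
  have hperp : ∀ z, (z, (0 : C.H (p - 1))) ∈ C.co p → ⟪z, x⟫_ℂ = 0 := fun z hz =>
    hP ▸ perp_ker (co_closed C p) x hz
  have h0 := (hS _ _ _ _ _ (C.closed p) (co_closed C p) (perp_co C p)).1 x hperp
  cases p with
  | zero =>
    rw [hperp x ((mem_co_zero C).2 rfl), Complex.zero_re]; positivity
  | succ p =>
    have h1 := congrArg Complex.re ((mem_co_succ C).1 hx.2 _ _ (X.htp.2 p x _ h0))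
    set w := adjoint (X.g (p + 1)) x with hw
    obtain ⟨b, hb, hb2⟩ := X.adj_f (p + 1) (w - H35.perp (adjoint A) w)
    rw [map_sub (adjoint A), H35.apply_perp, sub_self, norm_zero, mul_zero, norm_le_zero_iff] at hb2
    have h2 := hperp _ (hb2 ▸ hb)
    rw [adjoint_inner_left, inner_eq_zero_symm, inner_sub_right, sub_eq_zero, hw,
      adjoint_inner_right, ← hw] at h2
    simp only [map_zero, sub_zero, inner_sub_left, Complex.sub_re, Complex.zero_re, comp_apply,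
      h2] at h1
    have h4 := re_inner_op_le (X.f_le (p + 1)) x (H35.perp (adjoint A) w)
    have h5 := re_inner_op_le (X.h_le p) x k.snd
    nlinarith [mul_le_mul_of_nonneg_right hk (norm_nonneg x)]

lemma rev_one {y : B} (hy : y ∈ (LinearMap.ker A.toLinearMap)ᗮ) :
    ‖y‖ ≤ c * ∑ p ∈ Finset.range (n + 1), ‖(1 - kerProj (C.D p)) (X.g p y)‖ + c * ‖A y‖ ∧
      ∀ p < n + 1, ∃ k, ((1 - kerProj (C.D p)) (X.g p y), k) ∈ C.lap p ∧ ‖k‖ ≤ c * ‖A y‖ := by
  have hc := X.c_nonneg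
  have hperp : ∀ z, A z = 0 → ⟪z, y⟫_ℂ = 0 := fun z hz => hy z hz
  refine ⟨le_of_re_inner (by positivity) ?_, fun p _ => ⟨WithLp.toLp 2 (X.g (p + 1) (A y), 0),
    ⟨proj_mem (C.closed p) (X.gA p y), perp_co C p _ fun z hz => perp_ker (C.closed p) _ hz⟩, ?_⟩⟩
  · have h1 : ∀ p, (⟪X.f p (X.g p y), y⟫_ℂ).re ≤ c * ‖(1 - kerProj (C.D p)) (X.g p y)‖ * ‖y‖ := by
      intro p
      have h2 := X.Af p _ _ (kerProj_mem (C.closed p) (X.g p y))
      rw [map_zero] at h2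
      refine le_of_eq_of_le ?_ (re_inner_op_le (X.f_le p) _ y)
      simp [hperp _ h2]
    nth_rw 1 [X.sum y]
    rw [inner_add_left, inner_add_left, hperp _ (X.AA _), add_zero, sum_inner, Complex.add_re,
      Complex.re_sum, add_mul, Finset.mul_sum, Finset.sum_mul]
    exact add_le_add (Finset.sum_le_sum fun p _ => h1 p) (re_inner_op_le X.k_le _ _)
  · rw [WithLp.norm_toLp_fst]
    exact (X.g (p + 1)).le_of_opNorm_le (X.g_le _) _

lemma rev_two (hS : SplitStmt.{u}) {y : B} (hy : y ∈ (LinearMap.ker (adjoint A).toLinearMap)ᗮ) :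
    ‖y‖ ≤ c * ∑ p ∈ Finset.range (n + 1), ‖(1 - kerProj (C.co p)) (adjoint (X.f p) y)‖ +
        c * ‖adjoint A y‖ ∧
      ∀ p < n + 1, ∃ k, ((1 - kerProj (C.co p)) (adjoint (X.f p) y), k) ∈ C.lap p ∧
        ‖k‖ ≤ c * ‖adjoint A y‖ := by
  have hc := X.c_nonneg
  have hperp : ∀ z, adjoint A z = 0 → ⟪z, y⟫_ℂ = 0 := fun z hz => hy z hz
  refine ⟨le_of_re_inner (by positivity) ?_, fun p _ => ?_⟩
  · have hA : A y = 0 := ext_inner_left ℂ fun w => by
      rw [← adjoint_inner_left, inner_zero_right]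
      exact hperp _ (ext_inner_left ℂ fun z => by
        rw [adjoint_inner_right, adjoint_inner_right, X.AA]; simp)
    have h1 : ∀ p, (⟪y, X.f p (X.g p y)⟫_ℂ).re ≤
        c * ‖(1 - kerProj (C.co p)) (adjoint (X.f p) y)‖ * ‖y‖ := by
      intro p
      have h2 := X.adj_g p _ _ (kerProj_mem (co_closed C p) (adjoint (X.f p) y))
      rw [norm_zero, mul_zero, norm_le_zero_iff] at h2
      refine le_of_eq_of_le ?_
        (re_inner_op_le (T := adjoint (X.g p)) (by simpa using X.g_le p) _ y)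
      rw [← adjoint_inner_left, ← adjoint_inner_left]
      simp [hperp _ h2]
    nth_rw 2 [X.sum y]
    rw [hA, map_zero, add_zero, inner_add_right, inner_sum, Complex.add_re,
      Complex.re_sum, add_mul, Finset.mul_sum, Finset.sum_mul]
    refine add_le_add (Finset.sum_le_sum fun p _ => h1 p) ?_
    rw [← adjoint_inner_left, ← adjoint_inner_left]
    exact re_inner_op_le (T := adjoint X.k) (by simpa using X.k_le) _ _
  · obtain ⟨b, hb, hb2⟩ := X.adj_f p y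
    refine ⟨WithLp.toLp 2 (0, b), ⟨?_, proj_mem (co_closed C p) hb⟩, ?_⟩
    · exact (hS _ _ _ _ _ (C.closed p) (co_closed C p) (perp_co C p)).1 _
        fun z hz => perp_ker (co_closed C p) _ hz
    · rwa [WithLp.norm_toLp_snd]

end CD

section Theta

variable {C : Cx.{u} Q} {p : ℕ} {ι : Type*} {v : ι → C.H p}

lemma theta_eq (hS : SplitStmt.{u}) (hv : IsFrame (C.U p) v) {t : ℝ} (ht : 0 < t)
    (hfin : C.trH p t ≠ ⊤) :
    ENNReal.ofReal (((C.trH p t).toReal - (C.trK p).toReal) / t) =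
      (hs v (heat (C.lap p) (t / 2) ∘L (1 - kerProj (C.D p))) +
        hs v (heat (C.lap p) (t / 2) ∘L (1 - kerProj (C.co p)))) / ENNReal.ofReal t := by
  have h1 := (hS _ _ _ _ _ (C.closed p) (co_closed C p) (perp_co C p)).2.2.2 _ (half_pos ht)
  have h2 : C.trH p t = C.trK p + (hs v (heat (C.lap p) (t / 2) ∘L (1 - kerProj (C.D p))) +
      hs v (heat (C.lap p) (t / 2) ∘L (1 - kerProj (C.co p)))) := by
    rw [trH_eq hv ht, trK_eq hv, hs, hs, hs, hs, ← ENNReal.tsum_add, ← ENNReal.tsum_add]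
    refine tsum_congr fun j => ?_
    simp only [enorm_sq_eq]
    rw [← ENNReal.ofReal_add (by positivity) (by positivity),
      ← ENNReal.ofReal_add (by positivity) (by positivity)]
    exact congrArg _ (h1 (v j))
  rw [h2] at hfin ⊢
  obtain ⟨h3, h4⟩ := ENNReal.add_ne_top.1 hfin
  rw [ENNReal.toReal_add h3 h4, add_sub_cancel_left, ENNReal.ofReal_div_of_pos ht,
    ENNReal.ofReal_toReal h4]

end Theta

lemma exp_le {C t : ℝ} (hC : 0 < C) (ht : 0 < t) : Real.exp (-√t / C) ≤ 2 * C ^ 2 / t := by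
  have hs : 0 < √t / C := div_pos (Real.sqrt_pos.2 ht) hC
  have h1 := Real.quadratic_le_exp_of_nonneg hs.le
  rw [div_pow, Real.sq_sqrt ht.le] at h1
  rw [neg_div, Real.exp_neg, ← inv_div t]
  refine inv_anti₀ (by positivity) (le_trans ?_ h1)
  have : t / (2 * C ^ 2) = t / C ^ 2 / 2 := by field_simp
  linarith

lemma lintegral_inv_sq {M T : ℝ} (hM : 0 ≤ M) (hT : 0 < T) :
    ∫⁻ t in Ioi T, ENNReal.ofReal (M * t ^ (-2 : ℝ)) = ENNReal.ofReal (M / T) := by
  rw [← ofReal_integral_eq_lintegral_ofReal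
    ((integrableOn_Ioi_rpow_of_lt (by norm_num) hT).const_mul M)
    ((ae_restrict_iff' measurableSet_Ioi).2 (Eventually.of_forall fun t ht =>
      mul_nonneg hM (Real.rpow_nonneg (hT.trans ht).le _))),
    integral_const_mul, integral_Ioi_rpow_of_lt (by norm_num) hT]
  norm_num [Real.rpow_neg_one, div_eq_mul_inv]

lemma measurable_dens (μ : Measure ℝ) (C : ℝ) :
    Measurable fun t : ℝ => μ (Ioc 0 (C / √t)) / ENNReal.ofReal t := by
  have h : Monotone fun s : ℝ => μ (Ioc 0 s) := fun a b hab =>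
    measure_mono (Ioc_subset_Ioc_right hab)
  exact (h.measurable.comp (by fun_prop)).div (by fun_prop)

lemma fin_of_bound {μ : Measure ℝ} {C ε : ℝ} (hC : 0 < C) {n : ℕ} {θ : ℕ → ℝ → ℝ}
    (hθ : ∀ p ≤ n, IntegrableOn (θ p) (Ioi ε)) {a : ℕ → ℝ → ℝ≥0∞}
    (ha : ∀ p t, 0 < t → a p t / ENNReal.ofReal t ≤ ENNReal.ofReal (θ p t))
    (h : ∀ t ≥ C, μ (Ioc 0 (C⁻¹ / t)) ≤ ENNReal.ofReal C * ∑ p ∈ Finset.range (n + 1), a p t) :
    ∃ c > 0, ∃ T > 0, ∫⁻ t in Ioi T, μ (Ioc 0 (c / t)) / ENNReal.ofReal t ≠ ⊤ := by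
  refine ⟨C⁻¹, by positivity, max C ε, lt_max_of_lt_left hC, ne_top_of_le_ne_top ?_
    (setLIntegral_mono' (g := fun t => ENNReal.ofReal C *
      ∑ p ∈ Finset.range (n + 1), ENNReal.ofReal (θ p t)) measurableSet_Ioi fun t ht => ?_)⟩
  · have hi : ∀ p ∈ Finset.range (n + 1), IntegrableOn (θ p) (Ioi (max C ε)) := fun p hp =>
      (hθ p (Nat.lt_succ_iff.1 (Finset.mem_range.1 hp))).mono_set
        (Ioi_subset_Ioi (le_max_right _ _))
    rw [lintegral_const_mul' _ _ ENNReal.ofReal_ne_top, lintegral_finsetSum' _ fun p hp =>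
      (hi p hp).aemeasurable.ennreal_ofReal]
    exact ENNReal.mul_ne_top ENNReal.ofReal_ne_top
      (ENNReal.sum_ne_top.2 fun p hp => (hi p hp).lintegral_lt_top.ne)
  · have h1 : C < t := (le_max_left _ _).trans_lt ht
    refine (ENNReal.div_le_div_right (h t h1.le) _).trans ?_
    rw [mul_div_assoc, div_eq_mul_inv, Finset.sum_mul]
    gcongr with p hp
    exact ha p t (hC.trans h1)

theorem tail (hS : SplitStmt.{u}) (hW : WeylStmt.{u, v}) (hM : MeasStmt.{v})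
    (hD : DetStmt.{v}) : TailStmt.{u, v} := by
  intro G _ N _ hG hN r A n c ε C₀ C hε hF₀ hW₀ hC₀ hC hint p η hη
  obtain ⟨c', hb⟩ := basic hW c n
  obtain ⟨-, A', hA'⟩ := H14.l2.2 G r A
  obtain ⟨Cf, hCf, hfw⟩ := H35.forward.{u, v} hM (max 1 c) (le_max_left _ _)
  obtain ⟨Cr, hCr, hrv⟩ := H35.reverse.{u, v} hM (max 1 c) (le_max_left _ _) (n + 1)
  obtain ⟨V₀, hV₀, hw₀, hE₀⟩ := H14.l2.1 (G ⧸ (⊥ : Subgroup G)) r
  obtain ⟨X₀⟩ := cd_of_cech hC₀ hV₀
  choose ι₀ v₀ hv₀ using hF₀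
  have hθ₀ := fun p t (ht : 0 < t) => theta_eq hS (hv₀ p) ht (ne_top_of_le_ne_top
    ENNReal.ofReal_ne_top ((hb _ C₀ (fun p => ⟨ι₀ p, v₀ p, hv₀ p⟩) hW₀ p).1 t ht))
  have hsp := fun (Q : Type v) [Group Q] (C : Cx.{u} Q) p =>
    hS _ _ _ _ _ (C.closed p) (co_closed C p) (perp_co C p)
  have d1 := hD G N hN r r A (hG N hN r r A) (fin_of_bound hCr hint
    (fun p t ht => (hθ₀ p t ht).ge.trans' (ENNReal.div_le_div_right le_self_add _))
    (hrv _ C₀.H _ _ C₀.lap C₀.U ι₀ v₀ V₀ r _ _ (fun p => 1 - kerProj (C₀.D p)) X₀.g hw₀ (hE₀ _)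
      (fun p _ => ⟨lap_closed C₀ p, hv₀ p, equi_resolv C₀ p, equi_id.sub (equi_kerD C₀ p),
        X₀.g_equi p, X₀.g_le p, one_sub_kerProj_idem, (hsp _ C₀ p).2.1⟩)
      fun y hy => X₀.rev_one hy)) Cf hCf (η / 4 / Cf) (by positivity)
  have d2 := hD G N hN r r A' (hG N hN r r A') (fin_of_bound hCr hint
    (fun p t ht => (hθ₀ p t ht).ge.trans' (ENNReal.div_le_div_right le_add_self _))
    (by
      rw [matMeasure, hA']
      exact hrv _ C₀.H _ _ C₀.lap C₀.U ι₀ v₀ V₀ r _ _ (fun p => 1 - kerProj (C₀.co p))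
        (fun p => adjoint (X₀.f p)) hw₀ (hE₀ _).adjoint
        (fun p _ => ⟨lap_closed C₀ p, hv₀ p, equi_resolv C₀ p, equi_id.sub (equi_kerCo C₀ p),
          (X₀.f_equi p).adjoint, by simpa using X₀.f_le p, one_sub_kerProj_idem,
          (hsp _ C₀ p).2.2.1⟩)
        fun y hy => X₀.rev_two hS hy)) Cf hCf (η / 4 / Cf) (by positivity)
  set M : ℝ := max 0 (c' * (1 + 1⁻¹) ^ (n + 1)) with hM
  have hM0 : 0 ≤ M := le_max_left _ _
  filter_upwards [d1, d2, eventually_ge_atTop Cf, eventually_ge_atTop (8 * Cf ^ 2 * M / η)]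
    with T d1 d2 hT1 hT2
  filter_upwards [d1, d2] with i d1 d2
  obtain ⟨hF, hWi, hCi⟩ := hC i
  obtain ⟨V, hV, hw, hE⟩ := H14.l2.1 (G ⧸ N i) r
  obtain ⟨X⟩ := cd_of_cech hCi hV
  obtain ⟨ι, v, hv⟩ := hF p
  have hT0 : 0 < T := hCf.trans_le hT1
  have hb' := (hb _ (C i) hF hWi p).1
  have h1 : hs v (heat ((C i).lap p) (1 / 2)) ≤ ENNReal.ofReal M := by
    rw [← trH_eq hv one_pos]
    exact (hb' 1 one_pos).trans (ENNReal.ofReal_le_ofReal (le_max_right _ _))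
  have f1 := hfw _ _ _ _ ((C i).lap p) _ ι v V r _ _ (1 - kerProj ((C i).D p)) (X.f p)
    (lap_closed _ p) hv hw (equi_resolv _ p) (hE _) (equi_id.sub (equi_kerD _ p)) (X.f_equi p)
    norm_one_sub_kerProj (X.f_le p) one_sub_kerProj_idem (hsp _ _ p).2.1
    fun x k hx hP => X.fwd_one hx hP
  have f2 := hfw _ _ _ _ ((C i).lap p) _ ι v V r _ _ (1 - kerProj ((C i).co p))
    (adjoint (X.g p)) (lap_closed _ p) hv hw (equi_resolv _ p) (hE _).adjoint
    (equi_id.sub (equi_kerCo _ p)) (X.g_equi p).adjoint norm_one_sub_kerProj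
    (by simpa using X.g_le p) one_sub_kerProj_idem (hsp _ _ p).2.2.1
    fun x k hx hP => X.fwd_two hS hx hP
  rw [← hA'] at f2
  have key : ∀ t ∈ Ioi T,
      ENNReal.ofReal ((((C i).trH p t).toReal - ((C i).trK p).toReal) / t) ≤
      ENNReal.ofReal Cf * (matMeasure (quotMat (N i) A) (Ioc 0 (Cf / √t)) / ENNReal.ofReal t) +
      (ENNReal.ofReal Cf * (matMeasure (quotMat (N i) A') (Ioc 0 (Cf / √t)) / ENNReal.ofReal t) +
        ENNReal.ofReal (4 * Cf ^ 2 * M * t ^ (-2 : ℝ))) := by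
    intro t ht
    have ht0 : 0 < t := hT0.trans ht
    have ht1 : Cf ≤ t := hT1.trans (le_of_lt ht)
    have h2 : ENNReal.ofReal (Real.exp (-√t / Cf)) * hs v (heat ((C i).lap p) (1 / 2)) ≤
        ENNReal.ofReal (2 * Cf ^ 2 / t * M) := by
      rw [ENNReal.ofReal_mul (by positivity)]
      exact mul_le_mul' (ENNReal.ofReal_le_ofReal (exp_le hCf ht0)) h1
    have h3 : ENNReal.ofReal (4 * Cf ^ 2 * M * t ^ (-2 : ℝ)) =
        (ENNReal.ofReal (2 * Cf ^ 2 / t * M) + ENNReal.ofReal (2 * Cf ^ 2 / t * M)) /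
          ENNReal.ofReal t := by
      rw [← ENNReal.ofReal_add (by positivity) (by positivity), ← ENNReal.ofReal_div_of_pos ht0,
        Real.rpow_neg ht0.le, Real.rpow_two]
      congr 1
      field_simp
      ring
    rw [theta_eq hS hv ht0 (ne_top_of_le_ne_top ENNReal.ofReal_ne_top (hb' t ht0)), h3,
      ← mul_div_assoc, ← mul_div_assoc, ← ENNReal.add_div, ← ENNReal.add_div]
    refine ENNReal.div_le_div_right ?_ _
    refine (add_le_add ((f1 t ht1).trans (add_le_add_right h2 _))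
      ((f2 t ht1).trans (add_le_add_right h2 _))).trans (le_of_eq ?_)
    simp only [matMeasure]
    ring
  refine (setLIntegral_mono' measurableSet_Ioi key).trans ?_
  rw [lintegral_add_left ((measurable_dens _ _).const_mul _),
    lintegral_add_left ((measurable_dens _ _).const_mul _),
    lintegral_const_mul' _ _ ENNReal.ofReal_ne_top, lintegral_const_mul' _ _ ENNReal.ofReal_ne_top,
    lintegral_inv_sq (by positivity) hT0]
  have h4 : ENNReal.ofReal Cf * ENNReal.ofReal (η / 4 / Cf) = ENNReal.ofReal (η / 4) := by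
    rw [← ENNReal.ofReal_mul hCf.le, mul_div_cancel₀ _ hCf.ne']
  have h5 : 4 * Cf ^ 2 * M / T ≤ η / 2 := by
    rw [div_le_iff₀ hη] at hT2
    rw [div_le_iff₀ hT0]
    linarith
  refine (add_le_add ((mul_le_mul_right d1 _).trans h4.le) (add_le_add
    ((mul_le_mul_right d2 _).trans h4.le) (ENNReal.ofReal_le_ofReal h5))).trans (le_of_eq ?_)
  rw [← ENNReal.ofReal_add (by positivity) (by positivity),
    ← ENNReal.ofReal_add (by positivity) (by positivity)]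
  congr 1
  ring

end Pool.Agent.MP_d9582c_gt.H5
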