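import Pool.Agent.MP_d9582c_gt.H34.Stmts3

/-!
General facts about Hilbert complexes with a group action and the elementary properties of
the heat trace.
-/

open scoped InnerProductSpace ENNReal Topology
open MeasureTheory Set Filter ContinuousLinearMap

noncomputable section

namespace Pool.Agent.MP_d9582c_gt.H5

open Pool.Agent.MP_d9582c_gt.H34

universe u v

section General

variable {H K K' : Type*} [NormedAddCommGroup H] [InnerProductSpace ℂ H] [CompleteSpace H]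
  [NormedAddCommGroup K] [InnerProductSpace ℂ K] [CompleteSpace K]
  [NormedAddCommGroup K'] [InnerProductSpace ℂ K'] [CompleteSpace K']

omit [CompleteSpace H] in
lemma le_of_re_inner {x : H} {a : ℝ} (ha : 0 ≤ a) (h : (⟪x, x⟫_ℂ).re ≤ a * ‖x‖) : ‖x‖ ≤ a := by
  have e : (⟪x, x⟫_ℂ).re = ‖x‖ ^ 2 := (@norm_sq_eq_re_inner ℂ _ _ _ _ x).symm
  rw [e] at h
  by_contra hc
  nlinarith [not_le.1 hc, norm_nonneg x]

omit [CompleteSpace H] in
lemma re_inner_le (y x : H) : (⟪y, x⟫_ℂ).re ≤ ‖y‖ * ‖x‖ :=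
  (Complex.re_le_norm _).trans (norm_inner_le_norm _ _)

omit [CompleteSpace H] [CompleteSpace K] in
lemma re_inner_op_le {T : K →L[ℂ] H} {c : ℝ} (hT : ‖T‖ ≤ c) (y : K) (x : H) :
    (⟪T y, x⟫_ℂ).re ≤ c * ‖y‖ * ‖x‖ :=
  (re_inner_le _ _).trans (mul_le_mul_of_nonneg_right (T.le_of_opNorm_le hT y) (norm_nonneg _))

omit [CompleteSpace H] [CompleteSpace K] in
lemma isClosed_adjoint (Γ : Submodule ℂ (H × K)) : IsClosed (Γ.adjoint : Set (K × H)) := by
  have : (Γ.adjoint : Set (K × H)) =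
      ⋂ a, ⋂ b, ⋂ _ : (a, b) ∈ Γ, {x : K × H | ⟪b, x.1⟫_ℂ - ⟪a, x.2⟫_ℂ = 0} := by
    ext x
    simp only [SetLike.mem_coe, Submodule.mem_adjoint_iff, mem_iInter, mem_ofPred_eq]
  rw [this]
  exact isClosed_iInter fun a => isClosed_iInter fun b => isClosed_iInter fun _ =>
    isClosed_eq (by fun_prop) continuous_const

omit [CompleteSpace H] [CompleteSpace K] [CompleteSpace K'] in
lemma isClosed_pair {Γ : Submodule ℂ (H × K)} {Γ' : Submodule ℂ (H × K')}
    (h : IsClosed (Γ : Set (H × K))) (h' : IsClosed (Γ' : Set (H × K'))) :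
    IsClosed (pairGraph Γ Γ' : Set (H × WithLp 2 (K × K'))) :=
  (h.preimage (f := fun z : H × WithLp 2 (K × K') => (z.1, z.2.fst)) (by fun_prop)).inter
    (h'.preimage (f := fun z : H × WithLp 2 (K × K') => (z.1, z.2.snd)) (by fun_prop))

variable {Γ : Submodule ℂ (H × K)} (hΓ : IsClosed (Γ : Set (H × K)))

omit [CompleteSpace K] in
lemma norm_one_sub_kerProj : ‖1 - kerProj Γ‖ ≤ 1 := by
  rw [kerProj, ← Submodule.starProjection_orthogonal']
  exact Submodule.starProjection_norm_le _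

omit [CompleteSpace K] in
lemma one_sub_kerProj_idem (x : H) :
    (1 - kerProj Γ) ((1 - kerProj Γ) x) = (1 - kerProj Γ) x := by
  rw [kerProj, ← Submodule.starProjection_orthogonal']
  exact DFunLike.congr_fun (Submodule.isIdempotentElem_starProjection _).eq x

include hΓ

omit [CompleteSpace K] in
lemma perp_ker (x : H) {z : H} (hz : (z, (0 : K)) ∈ Γ) : ⟪z, (1 - kerProj Γ) x⟫_ℂ = 0 :=
  inner_eq_zero_symm.1 (inner_sub_kerProj hΓ hz x)

omit [CompleteSpace K] in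
lemma proj_mem {x : H} {a : K} (h : (x, a) ∈ Γ) : ((1 - kerProj Γ) x, a) ∈ Γ := by
  simpa using Γ.sub_mem h (kerProj_mem hΓ x)

omit [CompleteSpace K] in
lemma equi_kerProj {Q : Type*} [Group Q] {U : URep Q H}
    (h : ∀ q u, (u, (0 : K)) ∈ Γ → (U q u, (0 : K)) ∈ Γ) : Equi U U (kerProj Γ) :=
  equi_starProjection _ fun q u hu => (mem_kerClosure hΓ _).2 (h q u ((mem_kerClosure hΓ _).1 hu))

omit [CompleteSpace K] in
lemma re_inner_kerProj (u : H) : (⟪u, kerProj Γ u⟫_ℂ).re = ‖kerProj Γ u‖ ^ 2 := by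
  have h := inner_sub_kerProj hΓ (kerProj_mem hΓ u) u
  rw [inner_sub_left, sub_eq_zero] at h
  rw [h, @norm_sq_eq_re_inner ℂ]; rfl

lemma heat_of_ker {t : ℝ} (ht : 0 < t) {u : H} (hu : (u, (0 : K)) ∈ Γ) : heat Γ t u = u := by
  have hc := continuous_heatFn ht
  have h1 := norm_cfc_sq_le (T := resolv Γ) (φ := fun x => 1 - heatFn t x) (ψ := fun x => 1 - x)
    (c := (2 + 2 * t) ^ 2) (by fun_prop) (by fun_prop) (fun x hx => ?_) u
  · have hR := resolv_sa hΓ
    rw [cfc_sub _ _ _ continuousOn_const hc.continuousOn,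
      cfc_sub _ _ _ continuousOn_const (continuousOn_id' _), cfc_const_one ℝ _, cfc_id' ℝ _] at h1
    have h2 : (1 - resolv Γ) u = 0 := by simp [resolv_of_ker hΓ hu]
    rw [h2, norm_zero] at h1
    have h3 : (1 - cfc (heatFn t) (resolv Γ)) u = 0 := by
      rw [← norm_eq_zero]; nlinarith [norm_nonneg ((1 - cfc (heatFn t) (resolv Γ)) u)]
    exact (sub_eq_zero.1 h3).symm
  · obtain ⟨h0, h1⟩ := spectrum_resolv hΓ hx
    rw [← mul_pow]
    refine pow_le_pow_left₀ (sub_nonneg.2 (heatFn_le_one ht.le h1)) ?_ 2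
    rcases le_total x (1 / 2) with h | h
    · nlinarith [heatFn_nonneg t x, mul_nonneg ht.le (sub_nonneg.2 h1)]
    · have hx0 : 0 < x := by linarith
      rw [heatFn, if_neg (not_le.2 hx0)]
      have h2 := Real.add_one_le_exp (-t * (x⁻¹ - 1))
      have h3 : x⁻¹ - 1 ≤ 2 * (1 - x) := by
        rw [sub_le_iff_le_add, inv_le_iff_one_le_mul₀ hx0]; nlinarith
      nlinarith [mul_le_mul_of_nonneg_left h3 ht.le]

lemma norm_kerProj_le_heat {t : ℝ} (ht : 0 < t) (u : H) : ‖kerProj Γ u‖ ≤ ‖heat Γ t u‖ := by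
  refine le_of_re_inner (norm_nonneg _) ?_
  have h1 := inner_sub_kerProj hΓ (kerProj_mem hΓ u) u
  rw [inner_sub_left, sub_eq_zero] at h1
  rw [← h1]
  conv_lhs => rw [← heat_of_ker hΓ ht (kerProj_mem hΓ u)]
  rw [← (heat_sa Γ t).isSymmetric.apply_clm]
  exact re_inner_le _ _

lemma norm_heat_anti {s t : ℝ} (hs : 0 < s) (hst : s ≤ t) (u : H) :
    ‖heat Γ t u‖ ≤ ‖heat Γ s u‖ := by
  rcases hst.eq_or_lt with rfl | h
  · exact le_rfl
  · have := heat_add Γ (sub_pos.2 h) hs u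
    rw [sub_add_cancel] at this
    rw [this]
    simpa using (heat Γ (t - s)).le_of_opNorm_le (norm_heat_le hΓ (sub_pos.2 h).le) _

end General

variable {Q : Type v} [Group Q] (C : Cx.{u} Q)

lemma mem_co_succ {p : ℕ} {x : C.H (p + 1)} {b : C.H p} :
    (x, b) ∈ C.co (p + 1) ↔ ∀ u a, (u, a) ∈ C.D p → ⟪a, x⟫_ℂ - ⟪u, b⟫_ℂ = 0 :=
  Submodule.mem_adjoint_iff (C.D p) (x, b)

lemma mem_co_zero {x : C.H 0} {b : C.H 0} : (x, b) ∈ C.co 0 ↔ b = 0 :=
  ⟨fun h => h.2, fun h => ⟨trivial, h⟩⟩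

lemma co_closed : ∀ p, IsClosed (C.co p : Set (C.H p × C.H (p - 1)))
  | 0 => by
    have : (C.co 0 : Set (C.H 0 × C.H 0)) = {z | z.2 = 0} := Set.ext fun z => mem_co_zero C
    exact this ▸ isClosed_eq continuous_snd continuous_const
  | p + 1 => isClosed_adjoint (C.D p)

lemma lap_closed (p : ℕ) :
    IsClosed (C.lap p : Set (C.H p × WithLp 2 (C.H (p + 1) × C.H (p - 1)))) :=
  isClosed_pair (C.closed p) (co_closed C p)

lemma co_inv : ∀ p q u b, (u, b) ∈ C.co p → (C.U p q u, C.U (p - 1) q b) ∈ C.co p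
  | 0, q, u, b, h => (mem_co_zero C).2 (by rw [(mem_co_zero C).1 h]; exact map_zero _)
  | p + 1, q, u, b, h => (mem_co_succ C).2 fun w a hw => by
    have := (mem_co_succ C).1 h _ _ (C.inv p q⁻¹ w a hw)
    rwa [inner_rep, inner_rep, inv_inv] at this

lemma equi_resolv (p : ℕ) : Equi (C.U p) (C.U p) (resolv (C.lap p)) := fun q u => by
  have hm : ∀ q v a, (v, a) ∈ C.lap p → (C.U p q v,
      WithLp.toLp 2 (C.U (p + 1) q a.fst, C.U (p - 1) q a.snd)) ∈ C.lap p :=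
    fun q v a h => ⟨C.inv p q _ _ h.1, co_inv C p q _ _ h.2⟩
  refine (resolv_unique (lap_closed C p) (hm q _ _ (resolv_mem (lap_closed C p) u))
    fun v a hv => ?_).1
  have := inner_resolv (lap_closed C p) (hm q⁻¹ _ _ hv) u
  rw [inner_rep, inv_inv, WithLp.prod_inner_apply] at this
  rw [← map_sub, this, WithLp.prod_inner_apply]
  simp only [inner_rep, inv_inv]
  rfl

lemma equi_kerD (p : ℕ) : Equi (C.U p) (C.U p) (kerProj (C.D p)) :=
  equi_kerProj (C.closed p) fun q u h => by simpa using C.inv p q _ _ h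

lemma equi_kerCo (p : ℕ) : Equi (C.U p) (C.U p) (kerProj (C.co p)) :=
  equi_kerProj (co_closed C p) fun q u h => by simpa using co_inv C p q _ _ h

lemma equi_kerLap (p : ℕ) : Equi (C.U p) (C.U p) (kerProj (C.lap p)) :=
  equi_kerProj (lap_closed C p) fun q u h =>
    ⟨by simpa using C.inv p q _ _ h.1, by simpa using co_inv C p q _ _ h.2⟩

lemma perp_co : ∀ p (x : C.H p), (∀ z, (z, (0 : C.H (p + 1))) ∈ C.D p → ⟪z, x⟫_ℂ = 0) →
    (x, (0 : C.H (p - 1))) ∈ C.co p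
  | 0, _, _ => (mem_co_zero C).2 rfl
  | p + 1, x, h => (mem_co_succ C).2 fun u a hu => by
    rw [h a (C.dd p u a hu)]; simp

variable {C} {p : ℕ} {ι : Type*} {v : ι → C.H p}

lemma trH_eq (hv : IsFrame (C.U p) v) {t : ℝ} (ht : 0 < t) :
    C.trH p t = hs v (heat (C.lap p) (t / 2)) :=
  vnTrace_eq hv ((equi_resolv C p).cfc _) fun u => by
    have := heat_add (C.lap p) (half_pos ht) (half_pos ht) u
    rw [add_halves] at this
    rw [this, ← (heat_sa _ _).isSymmetric.apply_clm, @norm_sq_eq_re_inner ℂ]; rfl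

lemma trK_eq (hv : IsFrame (C.U p) v) : C.trK p = hs v (kerProj (C.lap p)) :=
  vnTrace_eq hv (equi_kerLap C p) (re_inner_kerProj (lap_closed C p))

lemma hs_mono {H H' : Type*} [NormedAddCommGroup H] [InnerProductSpace ℂ H]
    [NormedAddCommGroup H'] [InnerProductSpace ℂ H'] (w : ι → H) {X Y : H →L[ℂ] H'}
    (h : ∀ u, ‖X u‖ ≤ ‖Y u‖) : hs w X ≤ hs w Y := by
  simpa using hs_le_of_forall w (X := X) (Y := Y) (c := 1) fun u => by
    rw [one_mul]; gcongr; exact h u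

lemma htp_bound {T : ∀ p, C.H p →L[ℂ] C.H p} {h : ∀ p, C.H (p + 1) →L[ℂ] C.H p}
    (hT : C.Htp T h) {d : ℝ} (hd : ∀ p, ‖h p‖ ≤ d) :
    ∀ p x k, (x, k) ∈ C.lap p → ‖x‖ ≤ ‖T p x‖ + 2 * d * ‖k‖
  | 0, x, k, hx => by
    have h0 : 0 ≤ d := (norm_nonneg _).trans (hd 0)
    have h1 := (h 0).le_of_opNorm_le (hd 0) k.fst
    have h2 := norm_add_le (T 0 x) (h 0 k.fst)
    rw [← hT.1 x _ hx.1] at h2
    nlinarith [mul_le_mul_of_nonneg_left (WithLp.norm_fst_le _ k) h0, norm_nonneg k]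
  | p + 1, x, k, hx => by
    have h0 : 0 ≤ d := (norm_nonneg _).trans (hd 0)
    refine le_of_re_inner (by positivity) ?_
    have h1 := congrArg Complex.re ((mem_co_succ C).1 hx.2 _ _ (hT.2 p x _ hx.1))
    simp only [inner_sub_left, Complex.sub_re, Complex.zero_re] at h1
    have h2 := re_inner_le (T (p + 1) x) x
    have h3 := re_inner_op_le (hd (p + 1)) k.fst x
    have h4 := re_inner_op_le (hd p) x k.snd
    have h5 := mul_le_mul_of_nonneg_left (WithLp.norm_fst_le _ k) (mul_nonneg h0 (norm_nonneg x))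
    have h6 := mul_le_mul_of_nonneg_left (WithLp.norm_snd_le _ k) (mul_nonneg h0 (norm_nonneg x))
    nlinarith

theorem basic (hW : WeylStmt.{u, v}) : BasicStmt.{u, v} := by
  intro c m
  obtain ⟨c', hc', hW⟩ := hW (max 1 (2 * c)) (le_max_left _ _) m
  refine ⟨c' * 2 ^ (m + 1), fun Q _ C hF hC p => ?_⟩
  obtain ⟨ι, v, hv⟩ := hF p
  have hb : ∀ t > 0, C.trH p t ≤ ENNReal.ofReal (c' * 2 ^ (m + 1) * (1 + t⁻¹) ^ (m + 1)) := by
    intro t ht
    rw [trH_eq hv ht]
    refine (hW Q _ _ (C.lap p) (C.U p) ι v (lap_closed C p) hv (equi_resolv C p)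
      (fun δ hδ => ?_) _ (half_pos ht)).trans (ENNReal.ofReal_le_ofReal ?_)
    · obtain ⟨S, T, h, hH, hS⟩ := hC δ hδ
      have hδ0 := hδ.1
      have h0 : 0 ≤ c * δ := (norm_nonneg _).trans (hS 0).2.2.1
      have hc0 : 0 ≤ c := nonneg_of_mul_nonneg_left h0 hδ0
      refine ⟨S p, (hS p).1, ?_, fun x k hx => ?_⟩
      · rw [← vnTrace_eq hv (hS p).1 (T := adjoint (S p) ∘L S p) fun u => by
          rw [comp_apply, adjoint_inner_right, @norm_sq_eq_re_inner ℂ]; rfl]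
        refine (hS p).2.1.trans (ENNReal.ofReal_le_ofReal ?_)
        gcongr
        exact le_max_of_le_right (by linarith)
      · have h1 := htp_bound hH (fun p => (hS p).2.2.2) p x k hx
        have h2 := norm_add_le (S p x) (T p x)
        have h3 := (T p).le_of_opNorm_le (hS p).2.2.1 x
        have h4 : 2 * c * δ * (‖x‖ + ‖k‖) ≤ max 1 (2 * c) * δ * (‖x‖ + ‖k‖) := by
          gcongr; exact le_max_right _ _
        change ‖x‖ ≤ ‖S p x + T p x‖ + _ at h1
        nlinarith [mul_nonneg h0 (norm_nonneg x)]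
    · rw [mul_assoc, ← mul_pow]
      gcongr
      rw [inv_div, div_eq_mul_inv]
      linarith
  refine ⟨hb, fun s hs t ht hst => ?_, fun t ht => ?_⟩
  · refine ENNReal.toReal_mono (ne_top_of_le_ne_top ENNReal.ofReal_ne_top (hb s hs)) ?_
    rw [trH_eq hv hs, trH_eq hv ht]
    exact hs_mono v (norm_heat_anti (lap_closed C p) (half_pos hs) (by linarith))
  · refine ENNReal.toReal_mono (ne_top_of_le_ne_top ENNReal.ofReal_ne_top (hb t ht)) ?_
    rw [trH_eq hv ht, trK_eq hv]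
    exact hs_mono v (norm_kerProj_le_heat (lap_closed C p) (half_pos ht))

end Pool.Agent.MP_d9582c_gt.H5
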